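import Pool.Agent.T9h81.EAR.ZeroOne

/-!
# Nishimori's identities with the plus boundary condition
-/

set_option autoImplicit false

open MeasureTheory ProbabilityTheory Filter Topology
open scoped ENNReal Classical

namespace Pool.T9h81.NL

open Pool.T9h81.EAR

/-! ### The law of the couplings under sign flips -/

/-- Nishimori's condition at `β`: the law `ν` of a coupling satisfies
`ν(-dx) = exp (- 2 β x) ν(dx)`. -/
def Nishimori (β : ℝ) (ν : Measure ℝ) : Prop :=
  ν.map (fun x => -x) = ν.withDensity fun x => ENNReal.ofReal (Real.exp (-(2 * β * x)))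

section

variable {ι : Type}

/-- flip finitely many coordinates -/
noncomputable def flp (D : Finset ι) (J : ι → ℝ) : ι → ℝ := fun e => if e ∈ D then - J e else J e

theorem measurable_flp (D : Finset ι) : Measurable (flp D) := by
  rw [measurable_pi_iff]
  intro e
  unfold flp
  by_cases h : e ∈ D
  · simp only [h, if_true]
    exact (measurable_pi_apply e).neg
  · simp only [h, if_false]
    exact measurable_pi_apply e

theorem measurable_rho (β : ℝ) : Measurable fun x : ℝ => ENNReal.ofReal (Real.exp (-(2 * β * x))) :=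
  (Real.measurable_exp.comp ((measurable_id.const_mul (2 * β)).neg)).ennreal_ofReal

theorem map_flp (β : ℝ) (ν : ι → Measure ℝ) [∀ e, IsProbabilityMeasure (ν e)]
    (hν : ∀ e, Nishimori β (ν e)) (D : Finset ι) :
    (Measure.infinitePi ν).map (flp D) = (Measure.infinitePi ν).withDensity
      (fun J => ∏ e ∈ D, ENNReal.ofReal (Real.exp (-(2 * β * J e)))) := by
  set f : ι → ℝ → ℝ := fun e x => if e ∈ D then -x else x with hf
  have hfm : ∀ e, Measurable (f e) := by
    intro e
    rw [hf]
    by_cases h : e ∈ D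
    · simp only [h, if_true]
      exact measurable_id.neg
    · simp only [h, if_false]
      exact measurable_id
  have h1 : (Measure.infinitePi ν).map (flp D) = Measure.infinitePi fun e => (ν e).map (f e) := by
    have h2 := Measure.infinitePi_map_pi ν (f := f) hfm
    have h3 : (fun (x : ι → ℝ) i => f i (x i)) = flp D := by
      funext J e
      rfl
    rw [h3] at h2
    exact h2
  have hprob : ∀ e, IsProbabilityMeasure ((ν e).map (f e)) := fun e =>
    Measure.isProbabilityMeasure_map (hfm e).aemeasurable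
  rw [h1]
  symm
  apply Measure.eq_infinitePi
  intro s t ht
  rw [withDensity_apply _ (MeasurableSet.pi s.countable_toSet fun i _ => ht i)]
  -- the integrand as a product
  let g : ι → ℝ → ℝ≥0∞ := fun e x => (if e ∈ s then (t e).indicator (fun _ => 1) x else 1) *
    (if e ∈ D then ENNReal.ofReal (Real.exp (-(2 * β * x))) else 1)
  have hgm : ∀ e, Measurable (g e) := by
    intro e
    apply Measurable.mul
    · by_cases h : e ∈ s
      · simp only [h, if_true]
        exact measurable_const.indicator (ht e)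
      · simp only [h, if_false]
        exact measurable_const
    · by_cases h : e ∈ D
      · simp only [h, if_true]
        exact measurable_rho β
      · simp only [h, if_false]
        exact measurable_const
  have h4 : ∫⁻ J in (s : Set ι).pi t, ∏ e ∈ D, ENNReal.ofReal (Real.exp (-(2 * β * J e)))
      ∂(Measure.infinitePi ν) = ∫⁻ J, ∏ e ∈ s ∪ D, g e (J e) ∂(Measure.infinitePi ν) := by
    rw [← lintegral_indicator (MeasurableSet.pi s.countable_toSet fun i _ => ht i)]
    apply lintegral_congr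
    intro J
    have h5 : ∏ e ∈ s ∪ D, g e (J e) =
        (∏ e ∈ s, (t e).indicator (fun _ => 1) (J e)) *
          ∏ e ∈ D, ENNReal.ofReal (Real.exp (-(2 * β * J e))) := by
      rw [Finset.prod_mul_distrib]
      congr 1
      · rw [Finset.prod_ite_mem, Finset.union_inter_cancel_left]
      · rw [Finset.prod_ite_mem, Finset.union_inter_cancel_right]
    rw [h5]
    by_cases hJ : J ∈ (s : Set ι).pi t
    · rw [Set.indicator_of_mem hJ]
      have h6 : ∏ e ∈ s, (t e).indicator (fun _ => (1 : ℝ≥0∞)) (J e) = 1 := by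
        apply Finset.prod_eq_one
        intro e he
        rw [Set.indicator_of_mem (hJ e he)]
      rw [h6, one_mul]
    · rw [Set.indicator_of_notMem hJ]
      have h6 : ∃ e ∈ s, J e ∉ t e := by
        by_contra h7
        push Not at h7
        exact hJ fun e he => h7 e he
      obtain ⟨e, he, h7⟩ := h6
      rw [Finset.prod_eq_zero he (Set.indicator_of_notMem h7 _), zero_mul]
  rw [h4]
  have hind : iIndepFun (fun (e : ι) (J : ι → ℝ) => g e (J e)) (Measure.infinitePi ν) :=
    iIndepFun_infinitePi (X := fun e x => g e x) hgm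
  rw [lintegral_prod_eq_prod_lintegral_of_indepFun (s ∪ D) _ hind
    (fun e => (hgm e).comp (measurable_pi_apply e))]
  have h7 : ∀ e, ∫⁻ J, g e (J e) ∂(Measure.infinitePi ν) = ∫⁻ x, g e x ∂(ν e) := by
    intro e
    have h := lintegral_map (μ := Measure.infinitePi ν) (hgm e) (measurable_pi_apply e)
    rw [Measure.infinitePi_map_eval] at h
    exact h.symm
  have h8 : ∀ e ∈ D, ∀ A : Set ℝ, MeasurableSet A → ∫⁻ x, A.indicator (fun _ => (1 : ℝ≥0∞)) x *
      ENNReal.ofReal (Real.exp (-(2 * β * x))) ∂(ν e) = ((ν e).map fun x => -x) A := by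
    intro e _ A hA
    rw [hν e, withDensity_apply _ hA, ← lintegral_indicator hA]
    apply lintegral_congr
    intro x
    by_cases hx : x ∈ A
    · rw [Set.indicator_of_mem hx, Set.indicator_of_mem hx, one_mul]
    · rw [Set.indicator_of_notMem hx, Set.indicator_of_notMem hx, zero_mul]
  have h9 : ∀ e ∈ s ∪ D, ∫⁻ J, g e (J e) ∂(Measure.infinitePi ν) =
      if e ∈ s then ((ν e).map (f e)) (t e) else 1 := by
    intro e he
    rw [h7 e]
    by_cases hs : e ∈ s
    · rw [if_pos hs]
      by_cases hD : e ∈ D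
      · have h10 : f e = fun x => -x := by
          funext x
          simp [hf, hD]
        rw [h10, ← h8 e hD (t e) (ht e)]
        apply lintegral_congr
        intro x
        show (if e ∈ s then _ else _) * (if e ∈ D then _ else _) = _
        rw [if_pos hs, if_pos hD]
      · have h10 : f e = fun x => x := by
          funext x
          simp [hf, hD]
        rw [h10, Measure.map_id', ← lintegral_indicator_one (ht e)]
        apply lintegral_congr
        intro x
        show (if e ∈ s then _ else _) * (if e ∈ D then _ else _) = _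
        rw [if_pos hs, if_neg hD, mul_one]
        rfl
    · rw [if_neg hs]
      have hD : e ∈ D := (Finset.mem_union.mp he).resolve_left hs
      have h11 : ∫⁻ x, g e x ∂(ν e) = ((ν e).map fun x => -x) Set.univ := by
        rw [← h8 e hD Set.univ MeasurableSet.univ]
        apply lintegral_congr
        intro x
        show (if e ∈ s then _ else _) * (if e ∈ D then _ else _) = _
        rw [if_neg hs, if_pos hD, Set.indicator_univ]
      rw [h11]
      have : IsProbabilityMeasure ((ν e).map fun x => -x) :=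
        Measure.isProbabilityMeasure_map measurable_neg.aemeasurable
      exact measure_univ
  rw [Finset.prod_congr rfl h9, Finset.prod_ite_mem, Finset.union_inter_cancel_left]

/-- change of variables -/
theorem integral_flp (β : ℝ) (ν : ι → Measure ℝ) [∀ e, IsProbabilityMeasure (ν e)]
    (hν : ∀ e, Nishimori β (ν e)) (D : Finset ι) (H : (ι → ℝ) → ℝ) (hH : Measurable H) :
    ∫ J, H (flp D J) ∂(Measure.infinitePi ν) =
      ∫ J, Real.exp (-(2 * β * ∑ e ∈ D, J e)) * H J ∂(Measure.infinitePi ν) := by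
  rw [← integral_map (measurable_flp D).aemeasurable hH.aestronglyMeasurable, map_flp β ν hν D,
    integral_withDensity_eq_integral_toReal_smul]
  · apply integral_congr_ae (ae_of_all _ fun J => ?_)
    show (∏ e ∈ D, ENNReal.ofReal (Real.exp (-(2 * β * J e)))).toReal • H J = _
    rw [ENNReal.toReal_prod, smul_eq_mul]
    congr 1
    rw [Finset.mul_sum, ← Finset.sum_neg_distrib, Real.exp_sum]
    exact Finset.prod_congr rfl fun e _ => ENNReal.toReal_ofReal (Real.exp_pos _).le
  · exact Finset.measurable_prod _ fun e _ => (measurable_rho β).comp (measurable_pi_apply e)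
  · exact ae_of_all _ fun J => ENNReal.prod_lt_top fun e _ => ENNReal.ofReal_lt_top

end

/-! ### Gauge transformations -/

section

variable {V : Type} {G : SimpleGraph V}

/-- sign of a bond -/
noncomputable def sgE (σ : V → Bool) : Sym2 V → ℝ :=
  Sym2.lift ⟨fun x y => sg (σ x) * sg (σ y), fun x y => by ring⟩

theorem sgE_mk (σ : V → Bool) (x y : V) : sgE σ s(x, y) = sg (σ x) * sg (σ y) := rfl

/-- gauge transformation -/
noncomputable def gau (g : V → Bool) (J : Coupling G) : Coupling G := fun e => sgE g e.1 * J e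

/-- product of configurations -/
def mulc (g σ : V → Bool) : V → Bool := fun x => g x == σ x

theorem sgE_mulc (g σ : V → Bool) (e : Sym2 V) : sgE (mulc g σ) e = sgE g e * sgE σ e := by
  induction e using Sym2.ind with
  | _ x y =>
    rw [sgE_mk, sgE_mk, sgE_mk]
    unfold mulc
    rw [sg_beq, sg_beq]
    ring

variable [G.LocallyFinite]

/-- the edges touching `Λ` -/
noncomputable def EL (G : SimpleGraph V) [G.LocallyFinite] (Λ : Finset V) : Finset G.edgeSet :=
  (edgesOf G Λ).subtype fun e => e ∈ G.edgeSet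

theorem mem_EL {Λ : Finset V} {e : G.edgeSet} : e ∈ EL G Λ ↔ e.1 ∈ edgesOf G Λ := by
  unfold EL
  rw [Finset.mem_subtype]

theorem ham_eq (J : Coupling G) (Λ : Finset V) (σ : V → Bool) :
    ham J Λ σ = ∑ e ∈ EL G Λ, sgE σ e.1 * J e := by
  unfold ham EL
  have hsub : ∀ e ∈ edgesOf G Λ, e ∈ G.edgeSet := by
    intro e he
    obtain ⟨x, _, y, hy, rfl⟩ := mem_edgesOf.mp he
    exact hy
  have h1 : ∀ e ∈ edgesOf G Λ, bond J σ e =
      (if h : e ∈ G.edgeSet then sgE σ e * J ⟨e, h⟩ else 0) := by
    intro e he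
    obtain ⟨x, _, y, hy, rfl⟩ := mem_edgesOf.mp he
    have h2 : s(x, y) ∈ G.edgeSet := hy
    rw [bond_mk, dif_pos h2, sgE_mk]
    unfold Jc
    rw [dif_pos hy]
    ring
  rw [Finset.sum_congr rfl h1, ← Finset.sum_subtype_of_mem
    (fun e => if h : e ∈ G.edgeSet then sgE σ e * J ⟨e, h⟩ else 0) hsub]
  apply Finset.sum_congr rfl
  intro i _
  rw [dif_pos i.2]

theorem ham_gau (J : Coupling G) (Λ : Finset V) (g σ : V → Bool) :
    ham (gau g J) Λ σ = ham J Λ (mulc g σ) := by
  rw [ham_eq, ham_eq]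
  apply Finset.sum_congr rfl
  intro e _
  rw [sgE_mulc]
  unfold gau
  ring

/-- all plus -/
def pl : V → Bool := fun _ => true

/-- the extension of a configuration in `Λ` by plus -/
noncomputable def gx (Λ : Finset V) (g : Λ → Bool) : V → Bool := glue Λ g pl

omit [G.LocallyFinite] in
/-- multiplication in the box -/
def mulb (Λ : Finset V) (g : Λ → Bool) : Equiv.Perm (Λ → Bool) :=
  Function.Involutive.toPerm (fun η => fun z => (g z == η z)) (by
    intro η
    funext z
    show (g z == (g z == η z)) = η z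
    cases g z <;> cases η z <;> rfl)

theorem mulc_gx (Λ : Finset V) (g η : Λ → Bool) :
    mulc (gx Λ g) (gx Λ η) = gx Λ (mulb Λ g η) := by
  funext z
  unfold mulc gx
  by_cases hz : z ∈ Λ
  · rw [glue_mem _ _ hz, glue_mem _ _ hz, glue_mem _ _ hz]
    rfl
  · rw [glue_not_mem _ _ hz, glue_not_mem _ _ hz, glue_not_mem _ _ hz]
    rfl

theorem Zp_gau (β : ℝ) (J : Coupling G) (Λ : Finset V) (g : Λ → Bool) :
    Zp β (gau (gx Λ g) J) Λ pl = Zp β J Λ pl := by
  unfold Zp
  rw [← Equiv.sum_comp (mulb Λ g) (fun η => Real.exp (β * ham J Λ (glue Λ η pl)))]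
  apply Finset.sum_congr rfl
  intro η _
  show Real.exp (β * ham (gau (gx Λ g) J) Λ (gx Λ η)) = Real.exp (β * ham J Λ (gx Λ (mulb Λ g η)))
  rw [ham_gau, mulc_gx]

theorem ww_gau (β : ℝ) (J : Coupling G) (Λ : Finset V) (g : Λ → Bool) :
    Lim.ww β (gau (gx Λ g) J) Λ (fun _ => true) pl = Lim.ww β J Λ g pl := by
  unfold Lim.ww
  rw [Zp_gau]
  congr 2
  show β * ham (gau (gx Λ g) J) Λ (gx Λ fun _ => true) = β * ham J Λ (gx Λ g)
  rw [ham_gau, mulc_gx]
  congr 3
  funext z
  show (g z == true) = g z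
  cases g z <;> rfl

/-- the flipped couplings -/
noncomputable def DD (Λ : Finset V) (g : Λ → Bool) : Finset G.edgeSet :=
  (EL G Λ).filter fun e => sgE (gx Λ g) e.1 = -1

omit [G.LocallyFinite] in
theorem sgE_sign (σ : V → Bool) (e : Sym2 V) : sgE σ e = 1 ∨ sgE σ e = -1 := by
  induction e using Sym2.ind with
  | _ x y => exact sg_sg_sign _ _

theorem sgE_out {Λ : Finset V} (g : Λ → Bool) {e : G.edgeSet} (he : e ∉ EL G Λ) :
    sgE (gx Λ g) e.1 = 1 := by
  rw [mem_EL] at he
  obtain ⟨e, h⟩ := e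
  induction e using Sym2.ind with
  | _ x y =>
    have hx : x ∉ Λ := fun hx => he (mem_edgesOf.mpr ⟨x, hx, y, h, rfl⟩)
    have hy : y ∉ Λ := fun hy => he (mem_edgesOf.mpr ⟨y, hy, x, h.symm, Sym2.eq_swap⟩)
    show sg (gx Λ g x) * sg (gx Λ g y) = 1
    unfold gx
    rw [glue_not_mem _ _ hx, glue_not_mem _ _ hy]
    simp [pl, sg]

theorem gau_eq_flp (Λ : Finset V) (g : Λ → Bool) (J : Coupling G) :
    gau (gx Λ g) J = flp (DD Λ g) J := by
  funext e
  unfold gau flp DD
  by_cases he : e ∈ EL G Λ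
  · rcases sgE_sign (gx Λ g) e.1 with h | h
    · have h2 : e ∉ (EL G Λ).filter fun e => sgE (gx Λ g) e.1 = -1 := by
        rw [Finset.mem_filter, h]
        norm_num
      rw [if_neg h2, h, one_mul]
    · have h2 : e ∈ (EL G Λ).filter fun e => sgE (gx Λ g) e.1 = -1 :=
        Finset.mem_filter.mpr ⟨he, h⟩
      rw [if_pos h2, h]
      ring
  · have h2 : e ∉ (EL G Λ).filter fun e => sgE (gx Λ g) e.1 = -1 := by
      rw [Finset.mem_filter]
      exact fun h => he h.1
    rw [if_neg h2, sgE_out g he, one_mul]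

theorem ham_sub (Λ : Finset V) (g : Λ → Bool) (J : Coupling G) :
    ham J Λ (gx Λ g) - ham J Λ (gx Λ fun _ => true) = -(2 * ∑ e ∈ DD Λ g, J e) := by
  rw [ham_eq, ham_eq, ← Finset.sum_sub_distrib]
  unfold DD
  rw [Finset.sum_filter, Finset.mul_sum, ← Finset.sum_neg_distrib]
  apply Finset.sum_congr rfl
  intro e _
  have h1 : sgE (gx Λ fun _ => true) e.1 = 1 := by
    have h2 : gx Λ (fun _ => true) = pl := by
      funext z
      unfold gx
      by_cases hz : z ∈ Λ
      · rw [glue_mem _ _ hz]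
        rfl
      · rw [glue_not_mem _ _ hz]
    rw [h2]
    generalize (e : Sym2 V) = e'
    induction e' using Sym2.ind with
    | _ x y =>
      show sg true * sg true = 1
      simp [sg]
  rw [h1]
  rcases sgE_sign (gx Λ g) e.1 with h | h
  · rw [h, if_neg (by norm_num)]
    ring
  · rw [h, if_pos rfl]
    ring

theorem ww_change (β : ℝ) (J : Coupling G) (Λ : Finset V) (g : Λ → Bool) :
    Real.exp (-(2 * β * ∑ e ∈ DD Λ g, J e)) * Lim.ww β J Λ (fun _ => true) pl =
      Lim.ww β J Λ g pl := by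
  have h1 := ham_sub Λ g J
  unfold Lim.ww
  rw [← mul_div_assoc, ← Real.exp_add]
  congr 2
  show -(2 * β * ∑ e ∈ DD Λ g, J e) + β * ham J Λ (gx Λ fun _ => true) = β * ham J Λ (gx Λ g)
  linear_combination (-β) * h1

theorem measurable_ww (β : ℝ) (Λ : Finset V) (g : Λ → Bool) :
    Measurable fun J : Coupling G => Lim.ww β J Λ g pl := by
  unfold Lim.ww Zp
  exact (Real.measurable_exp.comp ((measurable_ham_J Λ _).const_mul β)).div
    (Finset.measurable_sum _ fun η _ =>
      Real.measurable_exp.comp ((measurable_ham_J Λ _).const_mul β))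

/-- **Nishimori's identity** for gauge covariant functions of the couplings. -/
theorem nish [Countable V] (β : ℝ) (ν : G.edgeSet → Measure ℝ)
    [∀ e, IsProbabilityMeasure (ν e)] (hν : ∀ e, Nishimori β (ν e)) (Λ : Finset V) (x : V)
    (T : Coupling G → ℝ) (hT : Measurable T) (C : ℝ) (hC : ∀ J, |T J| ≤ C)
    (hcov : ∀ (g : Λ → Bool) (J : Coupling G), T (gau (gx Λ g) J) = sg (gx Λ g x) * T J) :
    ∫ J, T J * gE β J Λ pl (fun σ => sg (σ x)) ∂(Measure.infinitePi ν) =
      ∫ J, T J ∂(Measure.infinitePi ν) := by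
  have hint : ∀ g : Λ → Bool, Integrable (fun J => T J * Lim.ww β J Λ g pl)
      (Measure.infinitePi ν) := by
    intro g
    refine Integrable.of_bound (hT.mul (measurable_ww β Λ g)).aestronglyMeasurable C
      (ae_of_all _ fun J => ?_)
    rw [Real.norm_eq_abs, abs_mul, abs_of_nonneg (Lim.ww_nonneg β J Λ g pl)]
    have h1 := hC J
    have h2 := Lim.ww_le_one β J Λ g pl
    have h3 := Lim.ww_nonneg β J Λ g pl
    calc |T J| * Lim.ww β J Λ g pl ≤ |T J| * 1 := mul_le_mul_of_nonneg_left h2 (abs_nonneg _)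
      _ ≤ C := by rw [mul_one]; exact h1
  have hterm : ∀ g : Λ → Bool, ∫ J, T J * Lim.ww β J Λ g pl * sg (gx Λ g x)
      ∂(Measure.infinitePi ν) = ∫ J, T J * Lim.ww β J Λ g pl ∂(Measure.infinitePi ν) := by
    intro g
    have h1 := integral_flp β ν hν (DD Λ g)
      (fun J => T J * Lim.ww β J Λ (fun _ => true) pl) (hT.mul (measurable_ww β Λ _))
    have h2 : ∀ J : Coupling G, T (flp (DD Λ g) J) *
        Lim.ww β (flp (DD Λ g) J) Λ (fun _ => true) pl = T J * Lim.ww β J Λ g pl * sg (gx Λ g x) := by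
      intro J
      rw [← gau_eq_flp, hcov g J, ww_gau]
      ring
    have h3 : ∀ J : Coupling G, Real.exp (-(2 * β * ∑ e ∈ DD Λ g, J e)) *
        (T J * Lim.ww β J Λ (fun _ => true) pl) = T J * Lim.ww β J Λ g pl := by
      intro J
      rw [← ww_change β J Λ g]
      ring
    simp only [h2, h3] at h1
    exact h1
  have h4 : ∀ J : Coupling G, T J * gE β J Λ pl (fun σ => sg (σ x)) =
      ∑ g : Λ → Bool, T J * Lim.ww β J Λ g pl * sg (gx Λ g x) := by
    intro J
    rw [Lim.gE_eq, Finset.mul_sum]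
    apply Finset.sum_congr rfl
    intro g _
    show T J * (Lim.ww β J Λ g pl * sg (gx Λ g x)) = _
    ring
  have h5 : ∀ J : Coupling G, T J = ∑ g : Λ → Bool, T J * Lim.ww β J Λ g pl := by
    intro J
    rw [← Finset.mul_sum, Lim.ww_sum, mul_one]
  calc ∫ J, T J * gE β J Λ pl (fun σ => sg (σ x)) ∂(Measure.infinitePi ν)
      = ∫ J, ∑ g : Λ → Bool, T J * Lim.ww β J Λ g pl * sg (gx Λ g x) ∂(Measure.infinitePi ν) :=
        integral_congr_ae (ae_of_all _ fun J => h4 J)
    _ = ∑ g : Λ → Bool, ∫ J, T J * Lim.ww β J Λ g pl * sg (gx Λ g x) ∂(Measure.infinitePi ν) :=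
        integral_finsetSum _ fun g _ => (hint g).mul_const _
    _ = ∑ g : Λ → Bool, ∫ J, T J * Lim.ww β J Λ g pl ∂(Measure.infinitePi ν) :=
        Finset.sum_congr rfl fun g _ => hterm g
    _ = ∫ J, ∑ g : Λ → Bool, T J * Lim.ww β J Λ g pl ∂(Measure.infinitePi ν) :=
        (integral_finsetSum _ fun g _ => hint g).symm
    _ = ∫ J, T J ∂(Measure.infinitePi ν) :=
        integral_congr_ae (ae_of_all _ fun J => (h5 J).symm)

/-- gauge covariance of the magnetisation -/
theorem gE_cov (β : ℝ) (Λ : Finset V) (x : V) (g : Λ → Bool) (J : Coupling G) :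
    gE β (gau (gx Λ g) J) Λ pl (fun σ => sg (σ x)) =
      sg (gx Λ g x) * gE β J Λ pl (fun σ => sg (σ x)) := by
  unfold gE
  rw [Zp_gau, ← mul_div_assoc]
  congr 1
  rw [Finset.mul_sum, ← Equiv.sum_comp (mulb Λ g)]
  apply Finset.sum_congr rfl
  intro η _
  show Real.exp (β * ham (gau (gx Λ g) J) Λ (gx Λ (mulb Λ g η))) * sg (gx Λ (mulb Λ g η) x) =
    sg (gx Λ g x) * (Real.exp (β * ham J Λ (gx Λ η)) * sg (gx Λ η x))
  have h1 : mulc (gx Λ g) (gx Λ (mulb Λ g η)) = gx Λ η := by
    rw [mulc_gx]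
    congr 1
    exact (mulb Λ g).apply_symm_apply η
  rw [ham_gau, h1, ← mulc_gx]
  unfold mulc
  rw [sg_beq]
  ring

/-- the second moment method on the Nishimori line -/
theorem magnetisation_ge [Countable V] (β : ℝ) (ν : G.edgeSet → Measure ℝ)
    [∀ e, IsProbabilityMeasure (ν e)] (hν : ∀ e, Nishimori β (ν e)) (Λ : Finset V) (x : V)
    (T : Coupling G → ℝ) (hT : Measurable T) (C : ℝ) (hC : ∀ J, |T J| ≤ C)
    (hcov : ∀ (g : Λ → Bool) (J : Coupling G), T (gau (gx Λ g) J) = sg (gx Λ g x) * T J)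
    (K : ℝ) (hK : 0 < K) (h1 : ∫ J, T J ∂(Measure.infinitePi ν) = 1)
    (h2 : ∫ J, T J ^ 2 ∂(Measure.infinitePi ν) ≤ K) :
    1 / K ≤ ∫ J, gE β J Λ pl (fun σ => sg (σ x)) ∂(Measure.infinitePi ν) := by
  set A : Coupling G → ℝ := fun J => gE β J Λ pl (fun σ => sg (σ x)) with hA
  have hAm : Measurable A := measurable_gE_J β Λ pl _
  have hA1 : ∀ J, |A J| ≤ 1 := fun J => abs_gE_le β J Λ pl _ 1 fun σ => (abs_sg _).le
  have e1 := nish β ν hν Λ x T hT C hC hcov
  have e2 := nish β ν hν Λ x A hAm 1 hA1 (fun g J => gE_cov β Λ x g J)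
  rw [h1] at e1
  change ∫ J, T J * A J ∂(Measure.infinitePi ν) = 1 at e1
  change ∫ J, A J * A J ∂(Measure.infinitePi ν) = ∫ J, A J ∂(Measure.infinitePi ν) at e2
  have iT : Integrable T (Measure.infinitePi ν) :=
    Integrable.of_bound hT.aestronglyMeasurable C (ae_of_all _ hC)
  have iT2 : Integrable (fun J => T J ^ 2) (Measure.infinitePi ν) := by
    refine Integrable.of_bound (hT.pow_const 2).aestronglyMeasurable (C ^ 2) (ae_of_all _ fun J => ?_)
    rw [Real.norm_eq_abs, abs_pow]
    exact pow_le_pow_left₀ (abs_nonneg _) (hC J) 2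
  have iTA : Integrable (fun J => T J * A J) (Measure.infinitePi ν) := by
    refine Integrable.of_bound (hT.mul hAm).aestronglyMeasurable C (ae_of_all _ fun J => ?_)
    rw [Real.norm_eq_abs, abs_mul]
    calc |T J| * |A J| ≤ |T J| * 1 := mul_le_mul_of_nonneg_left (hA1 J) (abs_nonneg _)
      _ ≤ C := by rw [mul_one]; exact hC J
  have iA2 : Integrable (fun J => A J * A J) (Measure.infinitePi ν) := by
    refine Integrable.of_bound (hAm.mul hAm).aestronglyMeasurable 1 (ae_of_all _ fun J => ?_)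
    rw [Real.norm_eq_abs, abs_mul]
    exact mul_le_one₀ (hA1 J) (abs_nonneg _) (hA1 J)
  set M := ∫ J, A J ∂(Measure.infinitePi ν) with hM
  -- `0 ≤ ∫ (T - K A) ^ 2`
  have h3 : 0 ≤ ∫ J, (T J - K * A J) ^ 2 ∂(Measure.infinitePi ν) :=
    integral_nonneg fun J => sq_nonneg _
  have h4 : ∫ J, (T J - K * A J) ^ 2 ∂(Measure.infinitePi ν) =
      ∫ J, T J ^ 2 ∂(Measure.infinitePi ν) - 2 * K * 1 + K ^ 2 * M := by
    have h5 : ∀ J, (T J - K * A J) ^ 2 = T J ^ 2 - 2 * K * (T J * A J) + K ^ 2 * (A J * A J) :=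
      fun J => by ring
    have i1 : Integrable (fun J => 2 * K * (T J * A J)) (Measure.infinitePi ν) :=
      iTA.const_mul _
    have i2 : Integrable (fun J => K ^ 2 * (A J * A J)) (Measure.infinitePi ν) :=
      iA2.const_mul _
    have i3 : Integrable (fun J => T J ^ 2 - 2 * K * (T J * A J)) (Measure.infinitePi ν) :=
      iT2.sub i1
    calc ∫ J, (T J - K * A J) ^ 2 ∂(Measure.infinitePi ν)
        = ∫ J, (T J ^ 2 - 2 * K * (T J * A J)) + K ^ 2 * (A J * A J)
            ∂(Measure.infinitePi ν) := integral_congr_ae (ae_of_all _ h5)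
      _ = ∫ J, T J ^ 2 ∂(Measure.infinitePi ν) - 2 * K * 1 + K ^ 2 * M := by
          rw [integral_add i3 i2, integral_sub iT2 i1, integral_const_mul, integral_const_mul,
            e1, e2]
  rw [h4] at h3
  have h6 : K ≤ K ^ 2 * M := by linarith
  rw [div_le_iff₀ hK]
  have h7 : K * 1 ≤ K * (M * K) := by
    calc K * 1 = K := mul_one K
      _ ≤ K ^ 2 * M := h6
      _ = K * (M * K) := by ring
  exact le_of_mul_le_mul_left h7 hK

end

end Pool.T9h81.NL
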