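import Mathlib

/-!
# The number of common edges of two random oriented paths in `ℤ^d`

`wk ζ n D` is the expectation of `ζ ^ N` where `N` is the number of common edges of two
independent uniform oriented paths with `n` steps whose starting points differ by `D`.
It is bounded if `ζ ≤ d - 1` and `d ≥ 12`.
-/

set_option autoImplicit false

namespace Pool.T9h81.NL

variable {d : ℕ}

/-- new difference -/
def stp (D : Fin d → ℤ) (a b : Fin d) : Fin d → ℤ := D + Pi.single a 1 - Pi.single b 1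

/-- squared norm -/
def nr (D : Fin d → ℤ) : ℝ := ∑ i, (D i : ℝ) ^ 2

theorem nr_nonneg (D : Fin d → ℤ) : 0 ≤ nr D := Finset.sum_nonneg fun _ _ => sq_nonneg _

/-- increment of the squared norm -/
noncomputable def dl (D : Fin d → ℤ) (a b : Fin d) : ℝ :=
  2 * ((D a : ℝ) - D b) + 2 * (1 - if a = b then 1 else 0)

theorem nr_stp (D : Fin d → ℤ) (a b : Fin d) : nr (stp D a b) = nr D + dl D a b := by
  unfold nr dl stp
  have h1 : ∀ i, (((D + Pi.single a 1 - Pi.single b 1 : Fin d → ℤ) i : ℤ) : ℝ) ^ 2 =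
      (D i : ℝ) ^ 2 + (if i = a then 2 * (D i : ℝ) + 1 else 0) +
        (if i = b then - 2 * (D i : ℝ) + 1 else 0) -
        (if i = a then (if a = b then 2 else 0) else 0) := by
    intro i
    rw [Pi.sub_apply, Pi.add_apply, Pi.single_apply, Pi.single_apply]
    by_cases ha : i = a
    · subst ha
      by_cases hb : i = b
      · subst hb
        simp
        ring
      · simp [hb]
        ring
    · by_cases hb : i = b
      · subst hb
        simp [ha]
        ring
      · simp [ha, hb]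
  rw [Finset.sum_congr rfl fun i _ => h1 i]
  rw [Finset.sum_sub_distrib, Finset.sum_add_distrib, Finset.sum_add_distrib,
    Finset.sum_ite_eq' Finset.univ a, Finset.sum_ite_eq' Finset.univ b,
    Finset.sum_ite_eq' Finset.univ a]
  simp only [Finset.mem_univ, if_true]
  by_cases hab : a = b
  · subst hab
    simp
    ring
  · simp [hab]
    ring

theorem dsum_left (f : Fin d → ℝ) : ∑ a : Fin d, ∑ _b : Fin d, f a = d * ∑ a, f a := by
  simp [Finset.mul_sum]

theorem dsum_right (f : Fin d → ℝ) : ∑ _a : Fin d, ∑ b : Fin d, f b = d * ∑ a, f a := by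
  simp

theorem dsum_diag (c : ℝ) : ∑ a : Fin d, ∑ b : Fin d, (if a = b then c else 0) = d * c := by
  simp

theorem dsum_const (c : ℝ) : ∑ _a : Fin d, ∑ _b : Fin d, c = (d : ℝ) ^ 2 * c := by
  simp
  ring

theorem sum_dl (D : Fin d → ℤ) : ∑ a, ∑ b, dl D a b = 2 * ((d : ℝ) ^ 2 - d) := by
  have h1 : ∀ a b, dl D a b = 2 * (D a : ℝ) - 2 * (D b : ℝ) + 2 - (if a = b then 2 else 0) := by
    intro a b
    unfold dl
    split_ifs <;> ring
  simp only [h1]
  simp only [Finset.sum_add_distrib, Finset.sum_sub_distrib]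
  rw [dsum_left (fun a => 2 * (D a : ℝ)), dsum_right (fun a => 2 * (D a : ℝ)), dsum_diag,
    dsum_const]
  ring

theorem sum_dl_sq (D : Fin d → ℤ) :
    ∑ a, ∑ b, dl D a b ^ 2 ≤ 8 * d * nr D + 4 * ((d : ℝ) ^ 2 - d) := by
  have h1 : ∀ a b, dl D a b ^ 2 = 4 * ((D a : ℝ) - D b) ^ 2 + 8 * ((D a : ℝ) - D b) +
      4 * (1 - if a = b then 1 else 0) := by
    intro a b
    unfold dl
    by_cases hab : a = b
    · subst hab
      simp
    · simp [hab]
      ring
  have h4 : ∀ a b, dl D a b ^ 2 = 4 * (D a : ℝ) ^ 2 + 4 * (D b : ℝ) ^ 2 -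
      8 * ((D a : ℝ) * D b) + 8 * (D a : ℝ) - 8 * (D b : ℝ) + 4 - (if a = b then 4 else 0) := by
    intro a b
    rw [h1]
    split_ifs <;> ring
  simp only [h4]
  simp only [Finset.sum_add_distrib, Finset.sum_sub_distrib]
  rw [dsum_left (fun a => 4 * (D a : ℝ) ^ 2), dsum_right (fun a => 4 * (D a : ℝ) ^ 2),
    dsum_left (fun a => 8 * (D a : ℝ)), dsum_right (fun a => 8 * (D a : ℝ)), dsum_diag,
    dsum_const]
  have h5 : ∑ a : Fin d, ∑ b : Fin d, 8 * ((D a : ℝ) * D b) = 8 * (∑ a, (D a : ℝ)) ^ 2 := by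
    simp only [← Finset.mul_sum, ← Finset.sum_mul]
    ring
  rw [h5, ← Finset.mul_sum]
  unfold nr
  nlinarith [sq_nonneg (∑ a, (D a : ℝ))]

/-- `D ≠ 0` can be followed by `0` in at most one way. -/
theorem stp_zero_unique {D : Fin d → ℤ} (hD : D ≠ 0) {a b a' b' : Fin d}
    (h : stp D a b = 0) (h' : stp D a' b' = 0) : a = a' ∧ b = b' := by
  have hab : a ≠ b := by
    rintro rfl
    apply hD
    unfold stp at h
    simpa using h
  have ha'b' : a' ≠ b' := by
    rintro rfl
    apply hD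
    unfold stp at h'
    simpa using h'
  have e1 : ∀ i, D i + (Pi.single a 1 : Fin d → ℤ) i - (Pi.single b 1 : Fin d → ℤ) i = 0 :=
    fun i => congrFun h i
  have e2 : ∀ i, D i + (Pi.single a' 1 : Fin d → ℤ) i - (Pi.single b' 1 : Fin d → ℤ) i = 0 :=
    fun i => congrFun h' i
  constructor
  · by_contra hne
    have h1 := e1 a
    have h2 := e2 a
    rw [Pi.single_eq_same, Pi.single_eq_of_ne hab] at h1
    rw [Pi.single_eq_of_ne hne] at h2
    by_cases h3 : a = b'
    · subst h3
      rw [Pi.single_eq_same] at h2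
      omega
    · rw [Pi.single_eq_of_ne h3] at h2
      omega
  · by_contra hne
    have h1 := e1 b
    have h2 := e2 b
    rw [Pi.single_eq_same, Pi.single_eq_of_ne (Ne.symm hab)] at h1
    rw [Pi.single_eq_of_ne hne] at h2
    by_cases h3 : b = a'
    · subst h3
      rw [Pi.single_eq_same] at h2
      omega
    · rw [Pi.single_eq_of_ne h3] at h2
      omega

theorem nr_two {D : Fin d → ℤ} (hD : D ≠ 0) {a b : Fin d} (h : stp D a b = 0) : nr D = 2 := by
  have hab : a ≠ b := by
    rintro rfl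
    apply hD
    unfold stp at h
    simpa using h
  have h1 := nr_stp D a b
  have h0 : nr (0 : Fin d → ℤ) = 0 := by simp [nr]
  rw [h, h0] at h1
  unfold dl at h1
  rw [if_neg hab] at h1
  have e1 : ∀ i, D i + (Pi.single a 1 : Fin d → ℤ) i - (Pi.single b 1 : Fin d → ℤ) i = 0 :=
    fun i => congrFun h i
  have ea := e1 a
  have eb := e1 b
  rw [Pi.single_eq_same, Pi.single_eq_of_ne hab] at ea
  rw [Pi.single_eq_same, Pi.single_eq_of_ne (Ne.symm hab)] at eb
  have ea' : (D a : ℝ) = -1 := by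
    have : D a = -1 := by omega
    rw [this]
    norm_num
  have eb' : (D b : ℝ) = 1 := by
    have : D b = 1 := by omega
    rw [this]
    norm_num
  rw [ea', eb'] at h1
  linarith

theorem half_le (D : Fin d → ℤ) (a b : Fin d) : (nr D + 8) / 2 ≤ nr D + 8 + dl D a b := by
  have h1 := nr_stp D a b
  -- `nr D ≤ 2 nr (stp D a b) + 4`
  have h2 := nr_stp (stp D a b) b a
  have h3 : stp (stp D a b) b a = D := by
    unfold stp
    abel
  rw [h3] at h2
  have h4 : dl (stp D a b) b a = 2 * (((stp D a b) b : ℝ) - (stp D a b) a) +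
      2 * (1 - if b = a then 1 else 0) := rfl
  by_cases hab : a = b
  · subst hab
    have h5 : dl D a a = 0 := by simp [dl]
    rw [h5]
    have := nr_nonneg D
    linarith
  · -- the two coordinates `a`, `b` of the new vector
    have h5 : ((stp D a b) a : ℝ) ^ 2 + ((stp D a b) b : ℝ) ^ 2 ≤ nr (stp D a b) := by
      unfold nr
      have h6 : ∑ i ∈ ({a, b} : Finset (Fin d)), ((stp D a b) i : ℝ) ^ 2 ≤
          ∑ i, ((stp D a b) i : ℝ) ^ 2 :=
        Finset.sum_le_univ_sum_of_nonneg fun i => sq_nonneg _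
      rwa [Finset.sum_pair hab] at h6
    rw [if_neg (Ne.symm hab)] at h4
    rw [h4] at h2
    nlinarith [sq_nonneg (((stp D a b) a : ℝ) + 1), sq_nonneg (((stp D a b) b : ℝ) - 1)]

theorem inv_le {S t : ℝ} (hS : 0 < S) (h : S / 2 ≤ S + t) :
    1 / (S + t) ≤ 1 / S - t / S ^ 2 + 2 * t ^ 2 / S ^ 3 := by
  have h1 : 0 < S + t := by linarith
  have h2 : 1 / S - t / S ^ 2 + 2 * t ^ 2 / S ^ 3 - 1 / (S + t) =
      t ^ 2 * (S + 2 * t) / (S ^ 3 * (S + t)) := by
    field_simp
    ring
  have h3 : 0 ≤ t ^ 2 * (S + 2 * t) / (S ^ 3 * (S + t)) := by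
    apply div_nonneg
    · exact mul_nonneg (sq_nonneg t) (by linarith)
    · positivity
  linarith

/-- the mean of `1 / (R + 8)` decreases -/
theorem sum_inv (hd : 9 ≤ d) (D : Fin d → ℤ) :
    ∑ a, ∑ b, 1 / (nr (stp D a b) + 8) ≤ (d : ℝ) ^ 2 / (nr D + 8) -
      (2 * nr D * ((d : ℝ) ^ 2 - 9 * d) + 8 * ((d : ℝ) ^ 2 - d)) / (nr D + 8) ^ 3 := by
  set S := nr D + 8 with hS
  have hR := nr_nonneg D
  have hS0 : 0 < S := by linarith
  have h1 : ∀ a b, 1 / (nr (stp D a b) + 8) ≤
      1 / S - dl D a b / S ^ 2 + 2 * dl D a b ^ 2 / S ^ 3 := by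
    intro a b
    have h2 := half_le D a b
    rw [nr_stp]
    have h3 : nr D + dl D a b + 8 = S + dl D a b := by rw [hS]; ring
    rw [h3]
    exact inv_le hS0 h2
  calc ∑ a, ∑ b, 1 / (nr (stp D a b) + 8)
      ≤ ∑ a, ∑ b, (1 / S - dl D a b / S ^ 2 + 2 * dl D a b ^ 2 / S ^ 3) :=
        Finset.sum_le_sum fun a _ => Finset.sum_le_sum fun b _ => h1 a b
    _ = (d : ℝ) ^ 2 / S - (∑ a, ∑ b, dl D a b) / S ^ 2 +
          2 * (∑ a, ∑ b, dl D a b ^ 2) / S ^ 3 := by
        simp only [Finset.sum_add_distrib, Finset.sum_sub_distrib, ← Finset.sum_div,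
          ← Finset.mul_sum]
        simp
        ring
    _ ≤ (d : ℝ) ^ 2 / S - (2 * ((d : ℝ) ^ 2 - d)) / S ^ 2 +
          2 * (8 * d * nr D + 4 * ((d : ℝ) ^ 2 - d)) / S ^ 3 := by
        rw [sum_dl]
        have h4 := sum_dl_sq D
        have h5 : 2 * (∑ a, ∑ b, dl D a b ^ 2) / S ^ 3 ≤
            2 * (8 * d * nr D + 4 * ((d : ℝ) ^ 2 - d)) / S ^ 3 := by
          apply div_le_div_of_nonneg_right _ (by positivity)
          linarith
        linarith
    _ = (d : ℝ) ^ 2 / S - (2 * nr D * ((d : ℝ) ^ 2 - 9 * d) + 8 * ((d : ℝ) ^ 2 - d)) / S ^ 3 := by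
        have h6 : nr D = S - 8 := by rw [hS]; ring
        rw [h6]
        field_simp
        ring

/-- expectation of `ζ ^ N` -/
noncomputable def wk (ζ : ℝ) : ℕ → (Fin d → ℤ) → ℝ
  | 0, _ => 1
  | n + 1, D => (∑ a : Fin d, ∑ b : Fin d,
      (if D = 0 ∧ a = b then ζ else 1) * wk ζ n (stp D a b)) / (d : ℝ) ^ 2

/-- the bound -/
noncomputable def psi (D : Fin d → ℤ) : ℝ :=
  if D = 0 then 13 * ((d : ℝ) - 1) else 1 + 120 / (nr D + 8)

theorem one_le_psi (hd : 12 ≤ d) (D : Fin d → ℤ) : 1 ≤ psi D := by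
  unfold psi
  have hd' : (12 : ℝ) ≤ d := by exact_mod_cast hd
  split_ifs with h
  · linarith
  · have := nr_nonneg D
    have : 0 ≤ 120 / (nr D + 8) := by positivity
    linarith

theorem nr_diag {a b : Fin d} (hab : a ≠ b) : nr (stp (0 : Fin d → ℤ) a b) = 2 := by
  rw [nr_stp]
  unfold dl
  rw [if_neg hab]
  simp [nr]

theorem stp_zero_eq {a b : Fin d} (hab : a ≠ b) : stp (0 : Fin d → ℤ) a b ≠ 0 := by
  intro h
  have := nr_diag hab
  rw [h] at this
  simp [nr] at this

theorem psi_super (hd : 12 ≤ d) (ζ : ℝ) (hζ : ζ ≤ (d : ℝ) - 1) (D : Fin d → ℤ) :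
    ∑ a : Fin d, ∑ b : Fin d, (if D = 0 ∧ a = b then ζ else 1) * psi (stp D a b) ≤
      (d : ℝ) ^ 2 * psi D := by
  have hd' : (12 : ℝ) ≤ d := by exact_mod_cast hd
  by_cases hD : D = 0
  · subst hD
    have h1 : ∀ a b : Fin d, (if (0 : Fin d → ℤ) = 0 ∧ a = b then ζ else 1) *
        psi (stp (0 : Fin d → ℤ) a b) = 13 + if a = b then ζ * (13 * ((d : ℝ) - 1)) - 13 else 0 := by
      intro a b
      by_cases hab : a = b
      · subst hab
        have h2 : stp (0 : Fin d → ℤ) a a = 0 := by simp [stp]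
        rw [h2, if_pos ⟨rfl, rfl⟩, if_pos rfl]
        unfold psi
        rw [if_pos rfl]
        ring
      · rw [if_neg (fun h => hab h.2), if_neg hab]
        unfold psi
        rw [if_neg (stp_zero_eq hab), nr_diag hab]
        norm_num
    rw [Finset.sum_congr rfl fun a _ => Finset.sum_congr rfl fun b _ => h1 a b]
    simp only [Finset.sum_add_distrib]
    rw [dsum_diag, dsum_const]
    unfold psi
    rw [if_pos rfl]
    nlinarith [mul_nonneg (sub_nonneg.mpr hζ) (show (0 : ℝ) ≤ d * (d - 1) by nlinarith)]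
  · have h1 : ∀ a b : Fin d, (if D = 0 ∧ a = b then ζ else 1) * psi (stp D a b) =
        1 + 120 * (1 / (nr (stp D a b) + 8)) +
          if stp D a b = 0 then 13 * ((d : ℝ) - 1) - 16 else 0 := by
      intro a b
      rw [if_neg (fun h => hD h.1), one_mul]
      unfold psi
      by_cases h : stp D a b = 0
      · rw [if_pos h, if_pos h, h]
        simp [nr]
        ring
      · rw [if_neg h, if_neg h]
        ring
    simp only [h1, Finset.sum_add_distrib, ← Finset.mul_sum]
    have h2 := sum_inv (by omega) D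
    have hR := nr_nonneg D
    have hS0 : 0 < nr D + 8 := by linarith
    have h3 : psi D = 1 + 120 / (nr D + 8) := by
      unfold psi
      rw [if_neg hD]
    rw [h3]
    have h4 : ∑ _x : Fin d, ∑ _y : Fin d, (1 : ℝ) = (d : ℝ) ^ 2 := by
      simp
      ring
    rw [h4]
    set Q := (2 * nr D * ((d : ℝ) ^ 2 - 9 * d) + 8 * ((d : ℝ) ^ 2 - d)) / (nr D + 8) ^ 3 with hQ
    have hQ0 : 0 ≤ Q := by
      apply div_nonneg _ (by positivity)
      have h5 : 0 ≤ (d : ℝ) ^ 2 - 9 * d := by nlinarith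
      have h6 : 0 ≤ (d : ℝ) ^ 2 - d := by nlinarith
      positivity
    have h7 : (d : ℝ) ^ 2 * (1 + 120 / (nr D + 8)) = (d : ℝ) ^ 2 + 120 * ((d : ℝ) ^ 2 / (nr D + 8)) := by
      ring
    rw [h7]
    by_cases hex : ∃ a b, stp D a b = 0
    · obtain ⟨a₀, b₀, h0⟩ := hex
      have h8 : ∑ a : Fin d, ∑ b : Fin d, (if stp D a b = 0 then 13 * ((d : ℝ) - 1) - 16 else 0) =
          13 * ((d : ℝ) - 1) - 16 := by
        rw [Finset.sum_eq_single a₀, Finset.sum_eq_single b₀, if_pos h0]
        · intro b _ hb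
          rw [if_neg fun h => hb (stp_zero_unique hD h h0).2]
        · intro h
          exact absurd (Finset.mem_univ _) h
        · intro a _ ha
          apply Finset.sum_eq_zero
          intro b _
          rw [if_neg fun h => ha (stp_zero_unique hD h h0).1]
        · intro h
          exact absurd (Finset.mem_univ _) h
      have h9 := nr_two hD h0
      have h10 : Q = (12 * (d : ℝ) ^ 2 - 44 * d) / 1000 := by
        rw [hQ, h9]
        norm_num
        ring
      rw [h8]
      have h11 : 13 * ((d : ℝ) - 1) - 16 ≤ 120 * Q := by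
        rw [h10]
        nlinarith
      linarith
    · push Not at hex
      have h8 : ∑ a : Fin d, ∑ b : Fin d,
          (if stp D a b = 0 then 13 * ((d : ℝ) - 1) - 16 else 0) = 0 := by
        apply Finset.sum_eq_zero
        intro a _
        apply Finset.sum_eq_zero
        intro b _
        rw [if_neg (hex a b)]
      rw [h8]
      linarith

theorem wk_le (hd : 12 ≤ d) (ζ : ℝ) (h0 : 0 ≤ ζ) (hζ : ζ ≤ (d : ℝ) - 1) (n : ℕ)
    (D : Fin d → ℤ) : wk ζ n D ≤ psi D := by
  have hd' : (12 : ℝ) ≤ d := by exact_mod_cast hd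
  induction n generalizing D with
  | zero => exact one_le_psi hd D
  | succ n ih =>
    show (∑ a : Fin d, ∑ b : Fin d,
      (if D = 0 ∧ a = b then ζ else 1) * wk ζ n (stp D a b)) / (d : ℝ) ^ 2 ≤ psi D
    rw [div_le_iff₀ (by positivity), mul_comm (psi D)]
    refine le_trans ?_ (psi_super hd ζ hζ D)
    refine Finset.sum_le_sum fun a _ => Finset.sum_le_sum fun b _ => ?_
    apply mul_le_mul_of_nonneg_left (ih _)
    split_ifs
    · exact h0
    · norm_num

end Pool.T9h81.NL
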