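import Pool.Agent.T9h81.NL.Nish
import Pool.Agent.T9h81.NL.Walk
import Pool.Agent.T9h81.EAR.MeanMain

/-!
# Oriented paths and the second moment
-/

set_option autoImplicit false

open MeasureTheory ProbabilityTheory Filter Topology
open scoped ENNReal Classical

namespace Pool.T9h81.NL

open Pool.T9h81.EAR

/-! ### One coupling -/

theorem abs_tanh_le_one (x : ℝ) : |Real.tanh x| ≤ 1 := by
  rw [Real.tanh_eq_sinh_div_cosh, abs_div, abs_of_pos (Real.cosh_pos x),
    div_le_one (Real.cosh_pos x), ← Real.cosh_abs x, Real.abs_sinh]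
  exact (Real.sinh_lt_cosh _).le

theorem measurable_tanh' (β : ℝ) : Measurable fun x : ℝ => Real.tanh (β * x) := by
  simp only [Real.tanh_eq_sinh_div_cosh]
  exact (Real.measurable_sinh.comp (measurable_id.const_mul β)).div
    (Real.measurable_cosh.comp (measurable_id.const_mul β))

theorem exp_tanh (y : ℝ) : Real.exp (-(2 * y)) * (1 + Real.tanh y) = 1 - Real.tanh y := by
  have hc := Real.cosh_pos y
  rw [Real.tanh_eq_sinh_div_cosh]
  have h1 : 1 + Real.sinh y / Real.cosh y = Real.exp y / Real.cosh y := by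
    rw [← Real.cosh_add_sinh y]
    field_simp
  have h2 : 1 - Real.sinh y / Real.cosh y = Real.exp (-y) / Real.cosh y := by
    rw [← Real.cosh_sub_sinh y]
    field_simp
  rw [h1, h2, ← mul_div_assoc, ← Real.exp_add]
  congr 2
  ring

theorem integral_tanh_sq (β : ℝ) (ν : Measure ℝ) [IsProbabilityMeasure ν] (hν : Nishimori β ν) :
    ∫ x, Real.tanh (β * x) ^ 2 ∂ν = ∫ x, Real.tanh (β * x) ∂ν := by
  have hm := measurable_tanh' β
  set h : ℝ → ℝ := fun x => Real.tanh (β * x) * (1 + Real.tanh (β * x)) with hh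
  have hhm : Measurable h := hm.mul (measurable_const.add hm)
  have e1 : ∫ x, h x ∂(ν.map fun x => -x) = ∫ x, h (-x) ∂ν :=
    integral_map measurable_neg.aemeasurable hhm.aestronglyMeasurable
  have e2 : ∫ x, h x ∂(ν.map fun x => -x) = ∫ x, Real.exp (-(2 * β * x)) * h x ∂ν := by
    rw [hν, integral_withDensity_eq_integral_toReal_smul (measurable_rho β)
      (ae_of_all _ fun x => ENNReal.ofReal_lt_top)]
    apply integral_congr_ae (ae_of_all _ fun x => ?_)
    show (ENNReal.ofReal (Real.exp (-(2 * β * x)))).toReal • h x = _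
    rw [ENNReal.toReal_ofReal (Real.exp_pos _).le, smul_eq_mul]
  rw [e1] at e2
  have e3 : ∀ x, h (-x) = -(Real.tanh (β * x) - Real.tanh (β * x) ^ 2) := by
    intro x
    rw [hh]
    simp only [mul_neg, Real.tanh_neg]
    ring
  have e4 : ∀ x, Real.exp (-(2 * β * x)) * h x = Real.tanh (β * x) - Real.tanh (β * x) ^ 2 := by
    intro x
    have h5 := exp_tanh (β * x)
    have h6 : 2 * β * x = 2 * (β * x) := by ring
    rw [h6]
    calc Real.exp (-(2 * (β * x))) * h x =
        Real.tanh (β * x) * (Real.exp (-(2 * (β * x))) * (1 + Real.tanh (β * x))) := by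
          rw [hh]; ring
      _ = _ := by rw [h5]; ring
  simp only [e3, e4] at e2
  rw [integral_neg] at e2
  have i1 : Integrable (fun x => Real.tanh (β * x)) ν :=
    Integrable.of_bound hm.aestronglyMeasurable 1 (ae_of_all _ fun x => abs_tanh_le_one _)
  have i2 : Integrable (fun x => Real.tanh (β * x) ^ 2) ν := by
    refine Integrable.of_bound (hm.pow_const 2).aestronglyMeasurable 1 (ae_of_all _ fun x => ?_)
    rw [Real.norm_eq_abs, abs_pow]
    exact pow_le_one₀ (abs_nonneg _) (abs_tanh_le_one _)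
  rw [integral_sub i1 i2] at e2
  linarith

/-! ### Oriented paths -/

variable {d : ℕ}

/-- the edge from `x` in direction `k` -/
def ed (p : Site d × Fin d) : (lat d).edgeSet :=
  ⟨s(p.1, p.1 + Pi.single p.2 1), ⟨p.2, Or.inl rfl⟩⟩

theorem ed_injective : Function.Injective (ed (d := d)) := by
  rintro ⟨x, a⟩ ⟨y, b⟩ h
  have h1 : s(x, x + Pi.single a 1) = s(y, y + Pi.single b (1 : ℤ)) := congrArg Subtype.val h
  rcases Sym2.eq_iff.mp h1 with ⟨h2, h3⟩ | ⟨h2, h3⟩
  · subst h2
    have h4 : (Pi.single a 1 : Fin d → ℤ) = Pi.single b 1 := add_left_cancel h3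
    have h5 : a = b := by
      by_contra hne
      have := congrFun h4 a
      rw [Pi.single_eq_same, Pi.single_eq_of_ne hne] at this
      exact one_ne_zero this
    rw [h5]
  · exfalso
    rw [h2] at h3
    have h4 : (Pi.single b 1 : Fin d → ℤ) + Pi.single a 1 = 0 := by
      have h5 : y + (Pi.single b 1 + Pi.single a 1) = y + 0 := by
        rw [add_zero, ← add_assoc]
        exact h3
      exact add_left_cancel h5
    have h6 := congrFun h4 b
    rw [Pi.add_apply, Pi.single_eq_same, Pi.zero_apply] at h6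
    by_cases hab : b = a
    · subst hab
      rw [Pi.single_eq_same] at h6
      omega
    · rw [Pi.single_eq_of_ne hab] at h6
      omega

/-- sum of the coordinates -/
def lev (x : Site d) : ℤ := ∑ i, x i

theorem lev_add (x : Site d) (a : Fin d) : lev (x + Pi.single a 1) = lev x + 1 := by
  unfold lev
  simp only [Pi.add_apply, Finset.sum_add_distrib]
  congr 1
  rw [Finset.sum_eq_single a]
  · rw [Pi.single_eq_same]
  · intro b _ hb
    rw [Pi.single_eq_of_ne hb]
  · intro h
    exact absurd (Finset.mem_univ _) h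

/-- edges of the oriented path from `x` with steps `s` -/
noncomputable def pe : (n : ℕ) → Site d → (Fin n → Fin d) → Finset (Site d × Fin d)
  | 0, _, _ => ∅
  | n + 1, x, s => insert (x, s 0) (pe n (x + Pi.single (s 0) 1) fun i => s i.succ)

/-- end point of the path -/
def en : (n : ℕ) → Site d → (Fin n → Fin d) → Site d
  | 0, x, _ => x
  | n + 1, x, s => en n (x + Pi.single (s 0) 1) fun i => s i.succ

theorem lev_pe : ∀ (n : ℕ) (x : Site d) (s : Fin n → Fin d), ∀ p ∈ pe n x s, lev x ≤ lev p.1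
  | 0, x, s => by
    intro p hp
    simp [pe] at hp
  | n + 1, x, s => by
    intro p hp
    unfold pe at hp
    rcases Finset.mem_insert.mp hp with rfl | h
    · exact le_rfl
    · have := lev_pe n _ _ p h
      rw [lev_add] at this
      omega

theorem lev_en : ∀ (n : ℕ) (x : Site d) (s : Fin n → Fin d), lev (en n x s) = lev x + n
  | 0, x, s => by simp [en]
  | n + 1, x, s => by
    unfold en
    rw [lev_en n, lev_add]
    push_cast
    ring

theorem notMem_pe {n : ℕ} {x y : Site d} {s : Fin n → Fin d} {a : Fin d} (h : lev x < lev y) :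
    (x, a) ∉ pe n y s := by
  intro hp
  have := lev_pe n y s _ hp
  simp only at this
  omega

/-- number of common edges -/
noncomputable def com (n : ℕ) (x y : Site d) (s s' : Fin n → Fin d) : ℕ :=
  (pe n x s ∩ pe n y s').card

theorem com_cons (n : ℕ) (x y : Site d) (h : lev x = lev y) (a b : Fin d) (s s' : Fin n → Fin d) :
    com (n + 1) x y (Fin.cons a s) (Fin.cons b s') =
      (if x - y = 0 ∧ a = b then 1 else 0) +
        com n (x + Pi.single a 1) (y + Pi.single b 1) s s' := by
  unfold com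
  have e1 : pe (n + 1) x (Fin.cons a s : Fin (n + 1) → Fin d) =
      insert (x, a) (pe n (x + Pi.single a 1) s) := by
    simp only [pe, Fin.cons_zero, Fin.cons_succ]
  have e2 : pe (n + 1) y (Fin.cons b s' : Fin (n + 1) → Fin d) =
      insert (y, b) (pe n (y + Pi.single b 1) s') := by
    simp only [pe, Fin.cons_zero, Fin.cons_succ]
  rw [e1, e2]
  have n1 : (x, a) ∉ pe n (y + Pi.single b 1) s' := notMem_pe (by rw [lev_add]; omega)
  have n2 : (y, b) ∉ pe n (x + Pi.single a 1) s := notMem_pe (by rw [lev_add]; omega)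
  have n3 : (x, a) ∉ pe n (x + Pi.single a 1) s := notMem_pe (by rw [lev_add]; omega)
  by_cases hxy : x - y = 0 ∧ a = b
  · rw [if_pos hxy]
    have hx : x = y := sub_eq_zero.mp hxy.1
    have ha := hxy.2
    subst hx
    subst ha
    rw [← Finset.insert_inter_distrib, Finset.card_insert_of_notMem, add_comm]
    intro h2
    exact n3 (Finset.mem_inter.mp h2).1
  · rw [if_neg hxy, zero_add]
    have hne : (x, a) ≠ (y, b) := by
      intro h2
      rw [Prod.mk.injEq] at h2
      exact hxy ⟨sub_eq_zero.mpr h2.1, h2.2⟩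
    rw [Finset.insert_inter_of_notMem, Finset.inter_insert_of_notMem n2]
    rw [Finset.mem_insert, not_or]
    exact ⟨hne, n1⟩

theorem sum_com (hd : 0 < d) (ζ : ℝ) : ∀ (n : ℕ) (x y : Site d), lev x = lev y →
    ∑ s : Fin n → Fin d, ∑ s' : Fin n → Fin d, ζ ^ com n x y s s' =
      (d : ℝ) ^ (2 * n) * wk ζ n (x - y)
  | 0, x, y, _ => by
    simp [com, pe, wk]
  | n + 1, x, y, h => by
    have hd0 : (d : ℝ) ≠ 0 := by exact_mod_cast hd.ne'
    rw [← (Fin.consEquiv fun _ => Fin d).sum_comp, Fintype.sum_prod_type]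
    have h1 : ∀ (a : Fin d) (s : Fin n → Fin d),
        ∑ s' : Fin (n + 1) → Fin d, ζ ^ com (n + 1) x y ((Fin.consEquiv fun _ => Fin d) (a, s)) s' =
        ∑ b : Fin d, ∑ s' : Fin n → Fin d, (if x - y = 0 ∧ a = b then ζ else 1) *
          ζ ^ com n (x + Pi.single a 1) (y + Pi.single b 1) s s' := by
      intro a s
      rw [← (Fin.consEquiv fun _ => Fin d).sum_comp, Fintype.sum_prod_type]
      apply Finset.sum_congr rfl
      intro b _
      apply Finset.sum_congr rfl
      intro s' _
      show ζ ^ com (n + 1) x y (Fin.cons a s) (Fin.cons b s') = _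
      rw [com_cons n x y h, pow_add]
      congr 1
      split_ifs
      · exact pow_one ζ
      · exact pow_zero ζ
    have h2 : ∀ a : Fin d, ∑ s : Fin n → Fin d, ∑ s' : Fin (n + 1) → Fin d,
        ζ ^ com (n + 1) x y ((Fin.consEquiv fun _ => Fin d) (a, s)) s' =
        ∑ b : Fin d, (if x - y = 0 ∧ a = b then ζ else 1) *
          ((d : ℝ) ^ (2 * n) * wk ζ n (stp (x - y) a b)) := by
      intro a
      rw [Finset.sum_congr rfl fun s _ => h1 a s, Finset.sum_comm]
      apply Finset.sum_congr rfl
      intro b _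
      have h3 : lev (x + Pi.single a 1) = lev (y + Pi.single b 1) := by
        rw [lev_add, lev_add, h]
      have h4 : stp (x - y) a b = (x + Pi.single a 1) - (y + Pi.single b 1) := by
        unfold stp
        abel
      rw [h4, ← sum_com hd ζ n _ _ h3, Finset.mul_sum]
      apply Finset.sum_congr rfl
      intro s _
      rw [Finset.mul_sum]
    rw [Finset.sum_congr rfl fun a _ => h2 a]
    show _ = (d : ℝ) ^ (2 * (n + 1)) * ((∑ a : Fin d, ∑ b : Fin d,
      (if x - y = 0 ∧ a = b then ζ else 1) * wk ζ n (stp (x - y) a b)) / (d : ℝ) ^ 2)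
    have h5 : (d : ℝ) ^ (2 * (n + 1)) = (d : ℝ) ^ (2 * n) * (d : ℝ) ^ 2 := by
      rw [← pow_add]
      congr 1
    rw [h5]
    field_simp
    rw [Finset.mul_sum]
    apply Finset.sum_congr rfl
    intro a _
    rw [Finset.mul_sum]
    apply Finset.sum_congr rfl
    intro b _
    ring

/-! ### The functional -/

section

variable (β : ℝ) (ν : (lat d).edgeSet → Measure ℝ)

/-- normalised signal of a coupling -/
noncomputable def uu (e : (lat d).edgeSet) (y : ℝ) : ℝ :=
  Real.tanh (β * y) / ∫ x, Real.tanh (β * x) ∂(ν e)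

/-- product over a set of edges -/
noncomputable def pp (A : Finset (Site d × Fin d)) (J : Coupling (lat d)) : ℝ :=
  ∏ p ∈ A, uu β ν (ed p) (J (ed p))

/-- the average over the oriented paths -/
noncomputable def TT (n : ℕ) (x : Site d) (J : Coupling (lat d)) : ℝ :=
  (∑ s : Fin n → Fin d, pp β ν (pe n x s) J) / (d : ℝ) ^ n

theorem measurable_uu (e : (lat d).edgeSet) : Measurable (uu β ν e) :=
  (measurable_tanh' β).div_const _

theorem measurable_pp (A : Finset (Site d × Fin d)) : Measurable (pp β ν A) := by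
  unfold pp
  exact Finset.measurable_prod _ fun p _ => (measurable_uu β ν (ed p)).comp
    (measurable_pi_apply _)

theorem measurable_TT (n : ℕ) (x : Site d) : Measurable (TT β ν n x) := by
  unfold TT
  exact (Finset.measurable_sum _ fun s _ => measurable_pp β ν _).div_const _

theorem uu_neg (e : (lat d).edgeSet) (c y : ℝ) (hc : c = 1 ∨ c = -1) :
    uu β ν e (c * y) = c * uu β ν e y := by
  unfold uu
  rcases hc with rfl | rfl
  · rw [one_mul, one_mul]
  · rw [neg_one_mul, mul_neg, Real.tanh_neg]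
    ring

theorem gau_ed (g : Site d → Bool) (J : Coupling (lat d)) (p : Site d × Fin d) :
    gau g J (ed p) = (sg (g p.1) * sg (g (p.1 + Pi.single p.2 1))) * J (ed p) := rfl

theorem pp_gau (g : Site d → Bool) (J : Coupling (lat d)) :
    ∀ (n : ℕ) (x : Site d) (s : Fin n → Fin d), pp β ν (pe n x s) (gau g J) =
      sg (g x) * sg (g (en n x s)) * pp β ν (pe n x s) J
  | 0, x, s => by
    simp [pp, pe, en, sg_mul_self]
  | n + 1, x, s => by
    have ih := pp_gau g J n (x + Pi.single (s 0) 1) fun i => s i.succ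
    have hn : (x, s 0) ∉ pe n (x + Pi.single (s 0) 1) fun i => s i.succ :=
      notMem_pe (by rw [lev_add]; omega)
    have e1 : ∀ J', pp β ν (pe (n + 1) x s) J' = uu β ν (ed (x, s 0)) (J' (ed (x, s 0))) *
        pp β ν (pe n (x + Pi.single (s 0) 1) fun i => s i.succ) J' := by
      intro J'
      unfold pp
      rw [pe, Finset.prod_insert hn]
    have e2 : en (n + 1) x s = en n (x + Pi.single (s 0) 1) fun i => s i.succ := rfl
    rw [e1, e1, ih, gau_ed, uu_neg β ν _ _ _ (sg_sg_sign _ _), e2]
    have h := sg_mul_self (g (x + Pi.single (s 0) 1))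
    linear_combination (sg (g x) * uu β ν (ed (x, s 0)) (J (ed (x, s 0))) *
      sg (g (en n (x + Pi.single (s 0) 1) fun i => s i.succ)) *
      pp β ν (pe n (x + Pi.single (s 0) 1) fun i => s i.succ) J) * h

theorem TT_gau (n : ℕ) (x : Site d) (Λ : Finset (Site d)) (hΛ : ∀ z ∈ Λ, lev z < lev x + n)
    (g : Λ → Bool) (J : Coupling (lat d)) :
    TT β ν n x (gau (gx Λ g) J) = sg (gx Λ g x) * TT β ν n x J := by
  unfold TT
  rw [← mul_div_assoc, Finset.mul_sum]
  congr 1
  apply Finset.sum_congr rfl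
  intro s _
  rw [pp_gau]
  have h1 : en n x s ∉ Λ := by
    intro h
    have h2 := hΛ _ h
    rw [lev_en] at h2
    omega
  have h2 : gx Λ g (en n x s) = true := by
    unfold gx
    rw [glue_not_mem _ _ h1]
    rfl
  rw [h2]
  simp [sg]

variable [∀ e, IsProbabilityMeasure (ν e)]

/-- expectation of a product over distinct edges -/
theorem integral_prod_ed (A : Finset (Site d × Fin d)) (f : Site d × Fin d → ℝ → ℝ)
    (hf : ∀ p, Measurable (f p)) :
    ∫ J, ∏ p ∈ A, f p (J (ed p)) ∂(Measure.infinitePi ν) = ∏ p ∈ A, ∫ y, f p y ∂(ν (ed p)) := by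
  have h1 : iIndepFun (fun (e : (lat d).edgeSet) (J : Coupling (lat d)) => J e)
      (Measure.infinitePi ν) :=
    iIndepFun_infinitePi (X := fun _ b => b) fun _ => measurable_id
  have hinj : Function.Injective (fun p : A => ed (d := d) p.1) :=
    fun p q h => Subtype.ext (ed_injective h)
  have h2 := h1.precomp hinj
  have h3 := h2.integral_fun_prod_comp (f := fun (p : A) => f p.1)
    (fun p => (measurable_pi_apply _).aemeasurable) (fun p => (hf p.1).aestronglyMeasurable)
  have h4 : ∀ J : Coupling (lat d), ∏ p ∈ A, f p (J (ed p)) = ∏ p : A, f p.1 (J (ed p.1)) :=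
    fun J => (Finset.prod_coe_sort A fun p => f p (J (ed p))).symm
  have h5 : ∀ p : A, ∫ J, f p.1 (J (ed p.1)) ∂(Measure.infinitePi ν) =
      ∫ y, f p.1 y ∂(ν (ed p.1)) := by
    intro p
    have h6 := integral_map (μ := Measure.infinitePi ν) (φ := fun J : Coupling (lat d) => J (ed p.1))
      (measurable_pi_apply _).aemeasurable (f := f p.1) (hf p.1).aestronglyMeasurable
    rw [Measure.infinitePi_map_eval] at h6
    exact h6.symm
  simp only [h4]
  refine h3.trans ?_
  rw [← Finset.prod_coe_sort A fun p => ∫ y, f p y ∂(ν (ed p))]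
  exact Finset.prod_congr rfl fun p _ => h5 p

variable {ν}

theorem integral_pp (hpos : ∀ e, 0 < ∫ x, Real.tanh (β * x) ∂(ν e)) (A : Finset (Site d × Fin d)) :
    ∫ J, pp β ν A J ∂(Measure.infinitePi ν) = 1 := by
  unfold pp
  rw [integral_prod_ed ν A (fun p => uu β ν (ed p)) fun p => measurable_uu β ν _]
  apply Finset.prod_eq_one
  intro p _
  unfold uu
  rw [integral_div]
  exact div_self (hpos _).ne'

theorem integral_uu_sq (hν : ∀ e, Nishimori β (ν e))
    (hpos : ∀ e, 0 < ∫ x, Real.tanh (β * x) ∂(ν e)) (e : (lat d).edgeSet) :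
    ∫ y, uu β ν e y * uu β ν e y ∂(ν e) = 1 / ∫ x, Real.tanh (β * x) ∂(ν e) := by
  have h1 : ∀ y, uu β ν e y * uu β ν e y =
      Real.tanh (β * y) ^ 2 / (∫ x, Real.tanh (β * x) ∂(ν e)) ^ 2 := by
    intro y
    unfold uu
    rw [div_mul_div_comm, sq, sq]
  simp only [h1]
  rw [integral_div, integral_tanh_sq β (ν e) (hν e)]
  have := (hpos e).ne'
  field_simp

theorem integral_pp_pp (hν : ∀ e, Nishimori β (ν e)) (ζ : ℝ) (hζ0 : 0 < ζ)
    (hζ : ∀ e, 1 / ζ ≤ ∫ x, Real.tanh (β * x) ∂(ν e)) (A B : Finset (Site d × Fin d)) :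
    ∫ J, pp β ν A J * pp β ν B J ∂(Measure.infinitePi ν) ≤ ζ ^ (A ∩ B).card := by
  have hpos : ∀ e, 0 < ∫ x, Real.tanh (β * x) ∂(ν e) := fun e =>
    lt_of_lt_of_le (by positivity) (hζ e)
  set f : Site d × Fin d → ℝ → ℝ := fun p y => (if p ∈ A then uu β ν (ed p) y else 1) *
    (if p ∈ B then uu β ν (ed p) y else 1) with hf
  have hfm : ∀ p, Measurable (f p) := by
    intro p
    rw [hf]
    apply Measurable.mul
    · by_cases h : p ∈ A
      · simp only [h, if_true]
        exact measurable_uu β ν _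
      · simp only [h, if_false]
        exact measurable_const
    · by_cases h : p ∈ B
      · simp only [h, if_true]
        exact measurable_uu β ν _
      · simp only [h, if_false]
        exact measurable_const
  have h1 : ∀ J : Coupling (lat d), pp β ν A J * pp β ν B J = ∏ p ∈ A ∪ B, f p (J (ed p)) := by
    intro J
    rw [hf]
    simp only
    rw [Finset.prod_mul_distrib]
    unfold pp
    congr 1
    · rw [Finset.prod_ite_mem, Finset.union_inter_cancel_left]
    · rw [Finset.prod_ite_mem, Finset.union_inter_cancel_right]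
  simp only [h1]
  rw [integral_prod_ed ν _ f hfm]
  have h2 : ∀ p ∈ A ∪ B, ∫ y, f p y ∂(ν (ed p)) ≤ if p ∈ A ∩ B then ζ else 1 := by
    intro p hp
    by_cases hA : p ∈ A
    · by_cases hB : p ∈ B
      · rw [if_pos (Finset.mem_inter.mpr ⟨hA, hB⟩)]
        have h3 : f p = fun y => uu β ν (ed p) y * uu β ν (ed p) y := by
          funext y
          simp [hf, hA, hB]
        rw [h3, integral_uu_sq β hν hpos, div_le_iff₀ (hpos _)]
        have h4 := hζ (ed p)
        rw [div_le_iff₀ hζ0] at h4
        linarith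
      · rw [if_neg fun h => hB (Finset.mem_inter.mp h).2]
        have h3 : f p = fun y => uu β ν (ed p) y := by
          funext y
          simp [hf, hA, hB]
        rw [h3]
        unfold uu
        rw [integral_div, div_self (hpos _).ne']
    · have hB : p ∈ B := (Finset.mem_union.mp hp).resolve_left hA
      rw [if_neg fun h => hA (Finset.mem_inter.mp h).1]
      have h3 : f p = fun y => uu β ν (ed p) y := by
        funext y
        simp [hf, hA, hB]
      rw [h3]
      unfold uu
      rw [integral_div, div_self (hpos _).ne']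
  have h5 : ∀ p ∈ A ∪ B, 0 ≤ ∫ y, f p y ∂(ν (ed p)) := by
    intro p hp
    by_cases hA : p ∈ A
    · by_cases hB : p ∈ B
      · apply integral_nonneg
        intro y
        simp only [hf, hA, hB, if_true]
        exact mul_self_nonneg _
      · have h3 : f p = fun y => uu β ν (ed p) y := by
          funext y
          simp [hf, hA, hB]
        rw [h3]
        unfold uu
        rw [integral_div, div_self (hpos _).ne']
        norm_num
    · have hB : p ∈ B := (Finset.mem_union.mp hp).resolve_left hA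
      have h3 : f p = fun y => uu β ν (ed p) y := by
        funext y
        simp [hf, hA, hB]
      rw [h3]
      unfold uu
      rw [integral_div, div_self (hpos _).ne']
      norm_num
  calc ∏ p ∈ A ∪ B, ∫ y, f p y ∂(ν (ed p)) ≤ ∏ p ∈ A ∪ B, (if p ∈ A ∩ B then ζ else 1) :=
        Finset.prod_le_prod h5 h2
    _ = ζ ^ (A ∩ B).card := by
        rw [Finset.prod_ite_mem, Finset.prod_const]
        congr 2
        ext p
        simp only [Finset.mem_inter, Finset.mem_union]
        tauto

theorem bound_pp (A : Finset (Site d × Fin d)) : ∃ C, ∀ J : Coupling (lat d), |pp β ν A J| ≤ C := by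
  refine ⟨∏ p ∈ A, |1 / ∫ x, Real.tanh (β * x) ∂(ν (ed p))|, fun J => ?_⟩
  unfold pp
  rw [Finset.abs_prod]
  apply Finset.prod_le_prod
  · intro p _
    exact abs_nonneg _
  · intro p _
    unfold uu
    rw [abs_div, abs_div, abs_one]
    exact div_le_div_of_nonneg_right (abs_tanh_le_one _) (abs_nonneg _)

theorem bound_TT (n : ℕ) (x : Site d) : ∃ C, ∀ J : Coupling (lat d), |TT β ν n x J| ≤ C := by
  choose C hC using fun s : Fin n → Fin d => bound_pp (ν := ν) β (pe n x s)
  refine ⟨(∑ s, C s) / |(d : ℝ) ^ n|, fun J => ?_⟩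
  unfold TT
  rw [abs_div]
  apply div_le_div_of_nonneg_right _ (abs_nonneg _)
  exact (Finset.abs_sum_le_sum_abs _ _).trans (Finset.sum_le_sum fun s _ => hC s J)

theorem integrable_pp (A : Finset (Site d × Fin d)) :
    Integrable (pp β ν A) (Measure.infinitePi ν) := by
  obtain ⟨C, hC⟩ := bound_pp (ν := ν) β A
  exact Integrable.of_bound (measurable_pp β ν A).aestronglyMeasurable C (ae_of_all _ hC)

theorem integral_TT (hd : 0 < d) (hpos : ∀ e, 0 < ∫ x, Real.tanh (β * x) ∂(ν e)) (n : ℕ)
    (x : Site d) : ∫ J, TT β ν n x J ∂(Measure.infinitePi ν) = 1 := by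
  have hd0 : (d : ℝ) ≠ 0 := by exact_mod_cast hd.ne'
  unfold TT
  rw [integral_div, integral_finsetSum _ fun s _ => integrable_pp β _]
  simp only [integral_pp β hpos]
  rw [Finset.sum_const, Finset.card_univ, Fintype.card_fun, Fintype.card_fin, Fintype.card_fin,
    nsmul_eq_mul, mul_one]
  push_cast
  exact div_self (pow_ne_zero _ hd0)

theorem integral_TT_sq (hd : 12 ≤ d) (hν : ∀ e, Nishimori β (ν e))
    (hζ : ∀ e, 1 / ((d : ℝ) - 1) ≤ ∫ x, Real.tanh (β * x) ∂(ν e)) (n : ℕ) (x : Site d) :
    ∫ J, TT β ν n x J ^ 2 ∂(Measure.infinitePi ν) ≤ 13 * ((d : ℝ) - 1) := by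
  have hd' : (12 : ℝ) ≤ d := by exact_mod_cast hd
  have hd0 : (0 : ℝ) < d := by linarith
  set ζ : ℝ := (d : ℝ) - 1 with hζd
  have hζ0 : 0 < ζ := by rw [hζd]; linarith
  have h1 : ∀ J : Coupling (lat d), TT β ν n x J ^ 2 =
      (∑ s : Fin n → Fin d, ∑ s' : Fin n → Fin d, pp β ν (pe n x s) J * pp β ν (pe n x s') J) /
        (d : ℝ) ^ (2 * n) := by
    intro J
    unfold TT
    rw [div_pow, sq (∑ s, _), Finset.sum_mul_sum, ← pow_mul, mul_comm n 2]
  simp only [h1]
  have hint : ∀ s s' : Fin n → Fin d, Integrable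
      (fun J => pp β ν (pe n x s) J * pp β ν (pe n x s') J) (Measure.infinitePi ν) := by
    intro s s'
    obtain ⟨C, hC⟩ := bound_pp (ν := ν) β (pe n x s)
    obtain ⟨C', hC'⟩ := bound_pp (ν := ν) β (pe n x s')
    refine Integrable.of_bound ((measurable_pp β ν _).mul (measurable_pp β ν _)).aestronglyMeasurable
      (C * C') (ae_of_all _ fun J => ?_)
    rw [Real.norm_eq_abs, abs_mul]
    exact mul_le_mul (hC J) (hC' J) (abs_nonneg _) ((abs_nonneg _).trans (hC J))
  rw [integral_div, div_le_iff₀ (by positivity),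
    integral_finsetSum _ fun s _ => integrable_finsetSum _ fun s' _ => hint s s']
  have h2 : ∀ s : Fin n → Fin d, ∫ J, ∑ s' : Fin n → Fin d,
      pp β ν (pe n x s) J * pp β ν (pe n x s') J ∂(Measure.infinitePi ν) ≤
      ∑ s' : Fin n → Fin d, ζ ^ com n x x s s' := by
    intro s
    rw [integral_finsetSum _ fun s' _ => hint s s']
    exact Finset.sum_le_sum fun s' _ => integral_pp_pp β hν ζ hζ0 hζ _ _
  refine (Finset.sum_le_sum fun s _ => h2 s).trans ?_
  rw [sum_com (by omega) ζ n x x rfl, sub_self, mul_comm]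
  apply mul_le_mul_of_nonneg_right _ (by positivity)
  have h3 := wk_le hd ζ hζ0.le le_rfl n (0 : Fin d → ℤ)
  unfold psi at h3
  rw [if_pos rfl] at h3
  exact h3

end

/-! ### The main theorem -/

theorem lev_box {N : ℕ} {z : Site d} (hz : z ∈ box d N) : lev z ≤ d * N := by
  unfold lev
  rw [mem_box] at hz
  calc ∑ i, z i ≤ ∑ _i : Fin d, (N : ℤ) := Finset.sum_le_sum fun i _ => (hz i).2
    _ = d * N := by simp

/-- **Symmetry breaking on the Nishimori line.** -/
theorem main_nishimori (hd : 12 ≤ d) (β : ℝ) (ν : (lat d).edgeSet → Measure ℝ)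
    [∀ e, IsProbabilityMeasure (ν e)] (hν : ∀ e, Nishimori β (ν e))
    (hζ : ∀ e, 1 / ((d : ℝ) - 1) ≤ ∫ x, Real.tanh (β * x) ∂(ν e)) :
    ∀ᵐ J ∂(Measure.infinitePi ν), ∃ π : Measure (Site d → Bool), IsGibbs β J π ∧
      IsGibbs β J (π.map flipAll) ∧ π ≠ π.map flipAll := by
  have hd' : (12 : ℝ) ≤ d := by exact_mod_cast hd
  have hc0 : (0 : ℝ) < 13 * ((d : ℝ) - 1) := by linarith
  have hpos : ∀ e, 0 < ∫ x, Real.tanh (β * x) ∂(ν e) := fun e =>
    lt_of_lt_of_le (by apply div_pos one_pos; linarith) (hζ e)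
  refine broken_ae ν β pl (box d) (tendsto_box d) ?_
  intro h1
  have hae : ∀ᵐ J ∂(Measure.infinitePi ν), NS β pl (box d) (J : Coupling (lat d)) := by
    rw [← prob_compl_eq_zero_iff (measurableSet_NS β pl (box d))] at h1
    rw [ae_iff]
    exact h1
  have hlim : Tendsto (fun N => ∫ J, gE β J (box d N) pl (fun σ => sg (σ 0))
      ∂(Measure.infinitePi ν)) atTop (𝓝 (∫ _J : Coupling (lat d), (0 : ℝ)
        ∂(Measure.infinitePi ν))) := by
    apply tendsto_integral_of_dominated_convergence (fun _ => (1 : ℝ))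
    · intro N
      exact (measurable_gE_J β (box d N) pl _).aestronglyMeasurable
    · exact integrable_const _
    · intro N
      exact ae_of_all _ fun J => abs_gE_le β J (box d N) pl _ 1 fun σ => (abs_sg _).le
    · filter_upwards [hae] with J hJ
      have h2 := hJ {0} (by simp)
      have h3 : (sX ({0} : Finset (Site d)) : (Site d → Bool) → ℝ) = fun σ => sg (σ 0) := by
        funext σ
        simp [sX]
      rw [h3] at h2
      exact h2
  rw [integral_zero] at hlim
  have hge : ∀ N, 1 / (13 * ((d : ℝ) - 1)) ≤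
      ∫ J, gE β J (box d N) pl (fun σ => sg (σ 0)) ∂(Measure.infinitePi ν) := by
    intro N
    obtain ⟨C, hC⟩ := bound_TT (ν := ν) β (d * N + 1) (0 : Site d)
    refine magnetisation_ge β ν hν (box d N) 0 (TT β ν (d * N + 1) 0) (measurable_TT β ν _ _) C hC
      ?_ _ hc0 (integral_TT β (by omega) hpos _ _) (integral_TT_sq β hd hν hζ _ _)
    intro g J
    apply TT_gau
    intro z hz
    have h4 := lev_box hz
    have h5 : lev (0 : Site d) = 0 := by simp [lev]
    rw [h5]
    push_cast
    omega
  have h6 := ge_of_tendsto' hlim hge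
  have h7 : 0 < 1 / (13 * ((d : ℝ) - 1)) := by positivity
  linarith

end Pool.T9h81.NL
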